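import Pool.Agent.Helper72.MK.GoalsT

/-! The frames of the unit quaternions (packet MK-FRM). -/

set_option autoImplicit false

noncomputable section

namespace Pool.Agent.Helper9.MK

open Set Filter Topology
open scoped Quaternion
open Pool.Agent.Helper72.MK

lemma norm_eq_one_iff (g : ℍ[ℝ]) : ‖g‖ = 1 ↔ g.re ^ 2 + g.imI ^ 2 + g.imJ ^ 2 + g.imK ^ 2 = 1 := by
  have h := Quaternion.normSq_eq_norm_mul_self g
  rw [Quaternion.normSq_def'] at h
  constructor
  · intro h1
    rw [h, h1, one_mul]
  · intro h1
    rw [h1] at h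
    have h0 := norm_nonneg g
    nlinarith

lemma half_sq : ((√2)⁻¹ : ℝ) ^ 2 = 1 / 2 := by
  rw [inv_pow, Real.sq_sqrt (by norm_num)]
  norm_num

theorem frm : FRMStmt := by
  have cre := Quaternion.continuous_re
  have cI := Quaternion.continuous_imI
  have cJ := Quaternion.continuous_imJ
  have cK := Quaternion.continuous_imK
  have hh := half_sq
  have hom : ‖om‖ = 1 := by
    rw [norm_eq_one_iff]
    simp only [om]
    nlinarith [hh]
  have hqi : ‖qi‖ = 1 := by
    rw [norm_eq_one_iff]
    simp [qi]
  refine ⟨⟨?_, ?_, ?_⟩, ?_⟩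
  · apply continuous_pi
    intro i
    fin_cases i <;> simp [q1] <;> fun_prop
  · apply continuous_pi
    intro i
    fin_cases i <;> simp [q2] <;> fun_prop
  · apply continuous_pi
    intro i
    fin_cases i <;> simp [q3] <;> fun_prop
  · intro g hg
    have hg1 : ‖g‖ = 1 := hg
    have hs := (norm_eq_one_iff g).1 hg1
    refine ⟨?_, ?_, ?_, ?_, ?_⟩
    · change ‖g * om‖ = 1
      rw [norm_mul, hg1, hom, one_mul]
    · change ‖g * qi‖ = 1
      rw [norm_mul, hg1, hqi, one_mul]
    · have hs2 : (g.re ^ 2 + g.imI ^ 2 + g.imJ ^ 2 + g.imK ^ 2) ^ 2 = 1 := by rw [hs]; norm_num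
      simp only [ip, q1, q2, q3, Fin.sum_univ_three, Matrix.cons_val_zero, Matrix.cons_val_one,
        Matrix.cons_val]
      refine ⟨?_, ?_, ?_, ?_, ?_, ?_⟩
      · linear_combination hs2
      · linear_combination hs2
      · linear_combination hs2
      · ring
      · ring
      · ring
    · refine ⟨?_, ?_, ?_⟩
      · funext i
        fin_cases i <;> simp [q1, q2, om] <;> ring_nf <;> (try simp only [inv_pow, Real.sq_sqrt (show (0:ℝ) ≤ 2 by norm_num)]) <;> ring
      · funext i
        fin_cases i <;> simp [q1, q2, om] <;> ring_nf <;> (try simp only [inv_pow, Real.sq_sqrt (show (0:ℝ) ≤ 2 by norm_num)]) <;> ring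
      · funext i
        fin_cases i <;> simp [q3, om] <;> ring_nf <;> (try simp only [inv_pow, Real.sq_sqrt (show (0:ℝ) ≤ 2 by norm_num)]) <;> ring
    · refine ⟨?_, ?_, ?_⟩
      · funext i
        fin_cases i <;> simp [q1, qi] <;> ring
      · funext i
        fin_cases i <;> simp [q2, qi] <;> ring
      · funext i
        fin_cases i <;> simp [q3, qi] <;> ring

end Pool.Agent.Helper9.MK
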